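import Mathlib
import Pool.Agent.H590.NL.Stm

/-!
P2V (MP_85210c_gt in all dimensions, helper590): the values at p = 2.
-/

set_option autoImplicit false

noncomputable section

open MeasureTheory Filter Topology Set
open scoped BigOperators ENNReal

namespace Pool.Agent.H400.NL

open H590NL

theorem Ph_two {n : ℕ} {κ : Type} [Fintype κ] (v : κ → V n) (h : Nrm v) (x : V n) :
    Ph 2 v one x = ∑ i, x i ^ 2 := by
  unfold Ph one
  have e : ∀ k, (1 : ℝ) * |ip (v k) x| ^ (2 : ℝ) = ∑ i, ∑ j, (v k i * v k j) * (x i * x j) := by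
    intro k
    rw [one_mul, Real.rpow_two, sq_abs]
    unfold ip
    rw [sq, Finset.sum_mul_sum]
    refine Finset.sum_congr rfl fun i _ => Finset.sum_congr rfl fun j _ => ?_
    ring
  rw [Finset.sum_congr rfl (fun k _ => e k), Finset.sum_comm]
  refine Finset.sum_congr rfl fun i _ => ?_
  rw [Finset.sum_comm]
  have e2 : ∀ j, ∑ k, (v k i * v k j) * (x i * x j) = if i = j then x i * x j else 0 := by
    intro j
    rw [← Finset.sum_mul, h i j]
    split_ifs <;> simp
  rw [Finset.sum_congr rfl (fun j _ => e2 j), Finset.sum_ite_eq, if_pos (Finset.mem_univ _), sq]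

theorem DD_two (hCB : S_CB) {n : ℕ} {κ : Type} [Fintype κ] (v : κ → V n) (h : Nrm v) (x : V n) :
    DD 2 v one x = 2 ^ n := by
  have h1 := hCB n κ v fun _ => 1
  have e1 : (Matrix.of fun i j => ∑ k, (1 : ℝ) * (v k i * v k j) : Matrix (Fin n) (Fin n) ℝ) = 1 := by
    ext i j
    rw [Matrix.of_apply, Matrix.one_apply]
    simp only [one_mul]
    exact h i j
  rw [e1, Matrix.det_one] at h1
  unfold DD one
  have e2 : ∀ f : Fin n → κ, (dm v f).det ^ 2 *
      ∏ i, ((2 : ℝ) * 1 * |ip (v (f i)) x| ^ ((2 : ℝ) - 2)) =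
      2 ^ n * ((dm v f).det ^ 2 * ∏ _i : Fin n, (1 : ℝ)) := by
    intro f
    have e3 : ∀ i, (2 : ℝ) * 1 * |ip (v (f i)) x| ^ ((2 : ℝ) - 2) = 2 := by
      intro i
      rw [sub_self, Real.rpow_zero]
      ring
    rw [Finset.prod_congr rfl (fun i _ => e3 i), Finset.prod_const, Finset.prod_const_one,
      Finset.card_univ, Fintype.card_fin]
    ring
  rw [Finset.sum_congr rfl (fun f _ => e2 f), ← Finset.mul_sum]
  have e4 : ∀ s : ℝ, (1 / (n.factorial : ℝ)) * (2 ^ n * s) = 2 ^ n * (1 / (n.factorial : ℝ) * s) :=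
    fun s => by ring
  rw [e4, ← h1, mul_one]

theorem gauss (n : ℕ) : ∫ x : V n, Real.exp (-(∑ i, x i ^ 2)) = Real.pi ^ ((n : ℝ) / 2) := by
  have e : (fun x : V n => Real.exp (-(∑ i, x i ^ 2))) =
      fun x : V n => ∏ i, Real.exp (-1 * x i ^ 2) := by
    funext x
    rw [← Real.exp_sum, ← Finset.mul_sum]
    congr 1
    ring
  rw [e]
  have h1 : ∫ x : V n, ∏ i, Real.exp (-1 * x i ^ 2) =
      ∏ _i : Fin n, ∫ x : ℝ, Real.exp (-1 * x ^ 2) :=
    integral_fintype_prod_volume_eq_prod (fun _ => fun x : ℝ => Real.exp (-1 * x ^ 2))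
  rw [h1, Finset.prod_const, Finset.card_univ, Fintype.card_fin, integral_gaussian, div_one,
    Real.sqrt_eq_rpow, ← Real.rpow_natCast, ← Real.rpow_mul Real.pi_pos.le]
  congr 1
  ring

theorem P2V (hCB : S_CB) : S_P2V := by
  intro n κ _ v h
  constructor
  · unfold FF
    simp only [Ph_two v h]
    exact gauss n
  · unfold AA
    simp only [Ph_two v h, DD_two hCB v h]
    rw [integral_mul_const, gauss, mul_comm]

end Pool.Agent.H400.NL
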